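import Pool.Agent.Y245.Dav.FinalE

/-! The sharp weak-type (1,1) inequality for the Hilbert transform of functions with values in an
arbitrary real Hilbert space.  Stronger form of `DavisConstant` (starting files), which has the
values `ℝ` and `ℂ`.  The subharmonic majorant `V` and its analysis are those of the starting
library `Pool.Agent.Helper458.Dav`; the new point is that for an orthonormal family of coordinates
the sum of the squares of the Cauchy integrals is one holomorphic function. -/

set_option autoImplicit false

open MeasureTheory

namespace Pool.Agent.Results.MP_e4b1aa_an.HilbertSpaceValued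

open Pool.Agent.Y245.Dav

universe u

/-- For every real Hilbert space `E ≠ 0` of any dimension (separable or not) the sharp weak-type
`(1,1)` constant of the Hilbert transform on `L¹(ℝ, E)` is Davis' constant; in particular it is so
for complex-valued functions (`E = ℂ` with the modulus). -/
theorem result :
    (∀ (E : Type u) [NormedAddCommGroup E] [InnerProductSpace ℝ E] [CompleteSpace E]
      [Nontrivial E],
      weakConst E = ENNReal.ofReal ((∑' k : ℕ, (1 : ℝ) / (2 * k + 1) ^ 2)
        / ∑' k : ℕ, (-1 : ℝ) ^ k / (2 * k + 1) ^ 2)) ∧
    weakConst ℂ = ENNReal.ofReal ((∑' k : ℕ, (1 : ℝ) / (2 * k + 1) ^ 2)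
      / ∑' k : ℕ, (-1 : ℝ) ^ k / (2 * k + 1) ^ 2) :=
  ⟨fun E _ _ _ _ => mainE E, mainE ℂ⟩

end Pool.Agent.Results.MP_e4b1aa_an.HilbertSpaceValued
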